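import Mathlib

/-!
The abstract tile assembly model with concentrations.
-/

set_option autoImplicit false

namespace Pool.Agent.X234.TA

open scoped ENNReal NNReal

/-- Positions. -/
abbrev Pos := ℤ × ℤ

/-- A glue: a label (a finite string) and a strength. -/
structure Glue where
  label : List Bool
  strength : ℕ

/-- A tile type: a unit square with a glue on each side. -/
structure Tile where
  north : Glue
  east : Glue
  south : Glue
  west : Glue

/-- An assembly: a tile type (or nothing) at each position. -/
abbrev Assembly := Pos → Option Tile

/-- The domain of an assembly. -/
def dom (α : Assembly) : Set Pos := {p | α p ≠ none}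

/-- Two positions are adjacent. -/
def Adj (p q : Pos) : Prop := |p.1 - q.1| + |p.2 - q.2| = 1

/-- A rule for the strength of the interaction of two abutting glues. -/
abbrev Rule := Glue → Glue → ℕ

open Classical in
/-- The standard rule: abutting sides interact if they carry equal labels (and equal strengths);
the strength of the interaction is the common strength. -/
noncomputable def standard : Rule := fun a b => if a = b then a.strength else 0

/-- The strength of the interaction of the tiles of `α` at the adjacent positions `p` and `q`
(zero if the positions are not adjacent or if one of them is empty). -/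
def bond (g : Rule) (α : Assembly) (p q : Pos) : ℕ :=
  match α p, α q with
  | some s, some t =>
    if q.1 = p.1 ∧ q.2 = p.2 + 1 then g s.north t.south
    else if q.1 = p.1 ∧ p.2 = q.2 + 1 then g t.north s.south
    else if q.2 = p.2 ∧ q.1 = p.1 + 1 then g s.east t.west
    else if q.2 = p.2 ∧ p.1 = q.1 + 1 then g t.east s.west
    else 0
  | _, _ => 0

/-- An assembly is `2`-stable: every cut of its binding graph (into a finite set `A` and the
remaining part, both nonempty) has total strength at least `2`. -/
def Stable (g : Rule) (α : Assembly) : Prop :=
  ∀ A B : Finset Pos, A.Nonempty → B.Nonempty → Disjoint A B → (A : Set Pos) ∪ B = dom α →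
    2 ≤ ∑ p ∈ A, ∑ q ∈ B, bond g α p q

/-- Adding one tile. -/
def add (α : Assembly) (m : Pos × Tile) : Assembly := Function.update α m.1 (some m.2)

/-- The tile type `t` can be added stably to `α` at the empty position `p` adjacent to `α`. -/
def CanAdd (g : Rule) (α : Assembly) (p : Pos) (t : Tile) : Prop :=
  α p = none ∧ (∃ q, Adj p q ∧ α q ≠ none) ∧ Stable g (add α (p, t))

/-- A tile system (at temperature `2`): a finite set of tile types and a seed consisting of one
tile. -/
structure TileSystem where
  T : Finset Tile
  seedPos : Pos
  seedTile : Tile
  seed_mem : seedTile ∈ T

variable (g : Rule) (S : TileSystem)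

/-- The seed assembly. -/
def seed : Assembly := add (fun _ => none) (S.seedPos, S.seedTile)

/-- The frontier. -/
def frontier (α : Assembly) : Set Pos := {p | ∃ t ∈ S.T, CanAdd g α p t}

open Classical in
/-- The tile types that can bind at `p`. -/
noncomputable def binders (α : Assembly) (p : Pos) : Finset Tile :=
  S.T.filter (CanAdd g α p)

open Classical in
/-- The probability of the step which adds the tile type `m.2` at the position `m.1` to `α`, for
the concentrations `ρ`: the position is chosen uniformly from the frontier, the tile type from
those which can bind there with probability proportional to the concentrations. -/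
noncomputable def stepProb (ρ : Tile → ℝ≥0) (α : Assembly) (m : Pos × Tile) : ℝ≥0 :=
  if m.2 ∈ binders g S α m.1 then
    ((frontier g S α).ncard : ℝ≥0)⁻¹ * (ρ m.2 / ∑ t ∈ binders g S α m.1, ρ t)
  else 0

/-- The assembly obtained from `α` by a sequence of additions. -/
def final (α : Assembly) : List (Pos × Tile) → Assembly
  | [] => α
  | m :: L => final (add α m) L

/-- The product of the step probabilities of a sequence of additions. -/
noncomputable def seqProb (ρ : Tile → ℝ≥0) (α : Assembly) : List (Pos × Tile) → ℝ≥0
  | [] => 1
  | m :: L => stepProb g S ρ α m * seqProb ρ (add α m) L

/-- No tile can be added. -/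
def Terminal (α : Assembly) : Prop := frontier g S α = ∅

open Classical in
/-- The probability that the random terminal assembly has the property `E`: the sum, over all
assembly sequences starting with the seed and ending in a terminal assembly with the property `E`,
of the products of the step probabilities. -/
noncomputable def Pr (ρ : Tile → ℝ≥0) (E : Assembly → Prop) : ℝ≥0∞ :=
  ∑' L : List (Pos × Tile),
    if Terminal g S (final (seed S) L) ∧ E (final (seed S) L) then
      (seqProb g S ρ (seed S) L : ℝ≥0∞) else 0

end Pool.Agent.X234.TA
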