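import Pool.Agent.X234.TA.Defs

set_option autoImplicit false

namespace Pool.Agent.X234.TA

open scoped ENNReal NNReal
open Finset

variable (g : Rule) (S : TileSystem)

section

variable {g S}

theorem binders_mem {α : Assembly} {p : Pos} {t : Tile} (h : t ∈ binders g S α p) :
    p ∈ frontier g S α := by
  classical
  unfold binders at h
  rw [Finset.mem_filter] at h
  exact ⟨t, h.1, h.2⟩

theorem binders_sub (α : Assembly) (p : Pos) : binders g S α p ⊆ S.T := by
  classical
  unfold binders
  exact Finset.filter_subset _ _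

theorem step_zero {ρ : Tile → ℝ≥0} {α : Assembly} (h : Terminal g S α) (m : Pos × Tile) :
    stepProb g S ρ α m = 0 := by
  unfold stepProb
  rw [if_neg]
  intro hm
  have := binders_mem hm
  rw [Terminal] at h
  rw [h] at this
  exact this

/-- The step probabilities sum to at most one. -/
theorem step_sum (ρ : Tile → ℝ≥0) (α : Assembly) :
    ∑' m : Pos × Tile, (stepProb g S ρ α m : ℝ≥0∞) ≤ 1 := by
  classical
  by_cases hfin : (frontier g S α).Finite
  · have hsupp : ∀ m : Pos × Tile, m ∉ hfin.toFinset ×ˢ S.T → (stepProb g S ρ α m : ℝ≥0∞) = 0 := by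
      intro m hm
      rw [ENNReal.coe_eq_zero]
      unfold stepProb
      rw [if_neg]
      intro h
      apply hm
      rw [Finset.mem_product]
      exact ⟨by simpa using binders_mem h, binders_sub _ _ h⟩
    rw [tsum_eq_sum (s := hfin.toFinset ×ˢ S.T) (fun m hm => hsupp m hm), ← ENNReal.ofNNReal_finsetSum]
    rw [← ENNReal.coe_one, ENNReal.coe_le_coe, Finset.sum_product]
    have h1 : ∀ p ∈ hfin.toFinset, ∑ t ∈ S.T, stepProb g S ρ α (p, t) ≤
        ((frontier g S α).ncard : ℝ≥0)⁻¹ := by
      intro p _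
      have h2 : ∑ t ∈ S.T, stepProb g S ρ α (p, t) = ∑ t ∈ binders g S α p,
          ((frontier g S α).ncard : ℝ≥0)⁻¹ * (ρ t / ∑ t' ∈ binders g S α p, ρ t') := by
        rw [← Finset.sum_subset (binders_sub (g := g) α p)]
        · refine Finset.sum_congr rfl fun t ht => ?_
          unfold stepProb
          rw [if_pos ht]
        · intro t _ ht
          unfold stepProb
          rw [if_neg ht]
      rw [h2, ← Finset.mul_sum, ← Finset.sum_div]
      calc _ ≤ ((frontier g S α).ncard : ℝ≥0)⁻¹ * 1 :=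
            mul_le_mul_of_nonneg_left (div_self_le_one _) (zero_le)
        _ = _ := mul_one _
    refine (Finset.sum_le_sum h1).trans ?_
    rw [Finset.sum_const, nsmul_eq_mul, ← Set.ncard_eq_toFinset_card _ hfin]
    exact mul_inv_le_one
  · have h0 : ∀ m : Pos × Tile, (stepProb g S ρ α m : ℝ≥0∞) = 0 := by
      intro m
      rw [ENNReal.coe_eq_zero]
      unfold stepProb
      rw [Set.Infinite.ncard hfin]
      simp
    simp [h0]

open Classical in
/-- The total probability of the terminal sequences is at most one. -/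
theorem total_le (ρ : Tile → ℝ≥0) : ∀ (n : ℕ) (α : Assembly),
    ∑' L : List (Pos × Tile), (if L.length < n ∧ Terminal g S (final α L) then
      (seqProb g S ρ α L : ℝ≥0∞) else 0) ≤ 1 := by
  intro n
  induction n with
  | zero => intro α; simp
  | succ n ih =>
    intro α
    have hsplit : ∀ F : List (Pos × Tile) → ℝ≥0∞, ∑' L, F L = F [] + ∑' m, ∑' L, F (m :: L) := by
      intro F
      let e : Unit ⊕ ((Pos × Tile) × List (Pos × Tile)) ≃ List (Pos × Tile) :=
        { toFun := fun o => Sum.elim (fun _ => []) (fun x => x.1 :: x.2) o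
          invFun := fun L => match L with
            | [] => Sum.inl ()
            | m :: L => Sum.inr (m, L)
          left_inv := by rintro (_ | ⟨m, L⟩) <;> rfl
          right_inv := by rintro (_ | ⟨m, L⟩) <;> rfl }
      rw [← e.tsum_eq, Summable.tsum_sum ENNReal.summable ENNReal.summable, ENNReal.tsum_prod']
      simp [e]
    rw [hsplit]
    by_cases hT : Terminal g S α
    · have h1 : ∀ m L, (if (m :: L).length < n + 1 ∧ Terminal g S (final α (m :: L)) then
          (seqProb g S ρ α (m :: L) : ℝ≥0∞) else 0) = 0 := by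
        intro m L
        split_ifs
        · rw [seqProb, step_zero hT, zero_mul]; rfl
        · rfl
      simp only [h1, tsum_zero, add_zero]
      split_ifs
      · simp [seqProb]
      · exact zero_le_one
    · have h1 : (if ([] : List (Pos × Tile)).length < n + 1 ∧ Terminal g S (final α []) then
          (seqProb g S ρ α [] : ℝ≥0∞) else 0) = 0 := by
        rw [if_neg]
        rintro ⟨-, h⟩
        exact hT h
      rw [h1, zero_add]
      refine le_trans (ENNReal.tsum_le_tsum fun m => ?_) (step_sum (g := g) (S := S) ρ α)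
      have h2 : ∀ L, (if (m :: L).length < n + 1 ∧ Terminal g S (final α (m :: L)) then
          (seqProb g S ρ α (m :: L) : ℝ≥0∞) else 0) = (stepProb g S ρ α m : ℝ≥0∞) *
          (if L.length < n ∧ Terminal g S (final (add α m) L) then
            (seqProb g S ρ (add α m) L : ℝ≥0∞) else 0) := by
        intro L
        simp only [List.length_cons, Nat.add_lt_add_iff_right, final, seqProb]
        split_ifs
        · rw [ENNReal.coe_mul]
        · rw [mul_zero]
      simp only [h2]
      rw [ENNReal.tsum_mul_left]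
      calc _ ≤ (stepProb g S ρ α m : ℝ≥0∞) * 1 := mul_le_mul_right (ih _) _
        _ = _ := mul_one _

open Classical in
theorem Pr_total (ρ : Tile → ℝ≥0) :
    ∑' L : List (Pos × Tile), (if Terminal g S (final (seed S) L) then
      (seqProb g S ρ (seed S) L : ℝ≥0∞) else 0) ≤ 1 := by
  rw [ENNReal.tsum_eq_iSup_sum]
  refine iSup_le fun F => ?_
  have h1 := total_le (g := g) (S := S) ρ (F.sup List.length + 1) (seed S)
  refine le_trans ?_ h1
  refine le_trans (Finset.sum_le_sum fun L hL => ?_) (ENNReal.sum_le_tsum F)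
  have h2 : L.length < F.sup List.length + 1 := Nat.lt_succ_of_le (Finset.le_sup hL)
  split_ifs with h3 h4 h4
  · exact le_rfl
  · exact absurd ⟨h2, h3⟩ h4
  · exact absurd h4.2 h3
  · exact le_rfl

open Classical in
theorem Pr_inter (ρ : Tile → ℝ≥0) (E F : Assembly → Prop) :
    Pr g S ρ E + Pr g S ρ F ≤ Pr g S ρ (fun α => E α ∧ F α) + 1 := by
  refine le_trans ?_ (add_le_add_right (Pr_total (g := g) (S := S) ρ) _)
  unfold Pr
  rw [← ENNReal.tsum_add, ← ENNReal.tsum_add]
  refine ENNReal.tsum_le_tsum fun L => ?_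
  by_cases hT : Terminal g S (final (seed S) L) <;> by_cases hE : E (final (seed S) L) <;>
    by_cases hF : F (final (seed S) L) <;> simp [hT, hE, hF]

/-! ### classes of sequences -/

/-- index type of the exponents -/
abbrev Idx := Tile ⊕ Finset Tile

open Classical in
/-- exponents -/
noncomputable def cls (g : Rule) (S : TileSystem) (α : Assembly) : List (Pos × Tile) → Idx → ℕ
  | [] => 0
  | m :: L => Pi.single (Sum.inl m.2) 1 + Pi.single (Sum.inr (binders g S α m.1)) 1 +
      cls g S (add α m) L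

open Classical in
/-- the constant -/
noncomputable def cst (g : Rule) (S : TileSystem) (α : Assembly) : List (Pos × Tile) → ℝ≥0
  | [] => 1
  | m :: L => (if m.2 ∈ binders g S α m.1 then ((frontier g S α).ncard : ℝ≥0)⁻¹ else 0) *
      cst g S (add α m) L

/-- factors -/
noncomputable def fac (ρ : Tile → ℝ≥0) : Idx → ℝ≥0
  | Sum.inl t => ρ t
  | Sum.inr B => (∑ t ∈ B, ρ t)⁻¹

open Classical in
/-- the relevant indices -/
noncomputable def JJ (S : TileSystem) : Finset Idx := S.T.disjSum S.T.powerset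

/-- the monomial -/
noncomputable def mon (S : TileSystem) (ρ : Tile → ℝ≥0) (v : Idx → ℕ) : ℝ≥0 :=
  ∏ i ∈ JJ S, fac ρ i ^ v i

theorem mon_add (ρ : Tile → ℝ≥0) (v w : Idx → ℕ) : mon S ρ (v + w) = mon S ρ v * mon S ρ w := by
  unfold mon
  rw [← Finset.prod_mul_distrib]
  exact Finset.prod_congr rfl fun i _ => pow_add _ _ _

open Classical in
theorem mon_single (ρ : Tile → ℝ≥0) {i : Idx} (hi : i ∈ JJ S) :
    mon S ρ (Pi.single i 1) = fac ρ i := by
  unfold mon
  rw [Finset.prod_eq_single_of_mem i hi]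
  · simp
  · intro j _ hj
    rw [Pi.single_eq_of_ne hj, pow_zero]

theorem seqProb_eq (ρ : Tile → ℝ≥0) (L : List (Pos × Tile)) : ∀ α : Assembly,
    seqProb g S ρ α L = cst g S α L * mon S ρ (cls g S α L) := by
  classical
  induction L with
  | nil =>
    intro α
    unfold cls
    rw [seqProb, cst, one_mul]
    unfold mon
    simp
  | cons m L ih =>
    intro α
    unfold cls
    rw [seqProb, cst, ih, mon_add, mon_add]
    unfold stepProb
    by_cases h : m.2 ∈ binders g S α m.1
    · rw [if_pos h, if_pos h, mon_single, mon_single]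
      · simp only [fac]
        rw [div_eq_mul_inv]
        ring
      · unfold JJ
        rw [Finset.inr_mem_disjSum, Finset.mem_powerset]
        exact binders_sub _ _
      · unfold JJ
        rw [Finset.inl_mem_disjSum]
        exact binders_sub _ _ h
    · rw [if_neg h, if_neg h]
      simp

theorem cls_le (L : List (Pos × Tile)) : ∀ (α : Assembly) (i : Idx), cls g S α L i ≤ L.length := by
  classical
  induction L with
  | nil => intro α i; exact Nat.zero_le _
  | cons m L ih =>
    intro α i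
    unfold cls
    have h1 := ih (add α m) i
    have h2 : (Pi.single (Sum.inl m.2) 1 : Idx → ℕ) i +
        (Pi.single (Sum.inr (binders g S α m.1)) 1 : Idx → ℕ) i ≤ 1 := by
      rcases i with t | B
      · rw [Pi.single_eq_of_ne (i := Sum.inr (binders g S α m.1)) (i' := Sum.inl t) (by simp),
          add_zero]
        by_cases h : t = m.2
        · subst h; simp
        · rw [Pi.single_eq_of_ne (by simpa using h)]; omega
      · rw [Pi.single_eq_of_ne (i := Sum.inl m.2) (i' := Sum.inr B) (by simp), zero_add]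
        by_cases h : B = binders g S α m.1
        · subst h; simp
        · rw [Pi.single_eq_of_ne (by simpa using h)]; omega
    simp only [Pi.add_apply, List.length_cons]
    omega

/-- sequences with nonzero constant are injective additions -/
theorem card_dom (L : List (Pos × Tile)) : ∀ α : Assembly, cst g S α L ≠ 0 → (dom α).Finite →
    (dom (final α L)).Finite ∧ (dom (final α L)).ncard = (dom α).ncard + L.length := by
  classical
  induction L with
  | nil => intro α _ hf; exact ⟨hf, rfl⟩
  | cons m L ih =>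
    intro α hc hf
    rw [cst] at hc
    have h1 : m.2 ∈ binders g S α m.1 := by
      by_contra h
      rw [if_neg h, zero_mul] at hc
      exact hc rfl
    have h2 : α m.1 = none := by
      unfold binders at h1
      exact (Finset.mem_filter.1 h1).2.1
    have h3 : dom (add α m) = insert m.1 (dom α) := by
      ext p
      unfold dom add
      by_cases hp : p = m.1
      · subst hp; simp
      · simp [Function.update_of_ne hp, hp]
    have h4 : m.1 ∉ dom α := by
      unfold dom
      simp [h2]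
    have h5 : (dom (add α m)).Finite := by rw [h3]; exact hf.insert _
    obtain ⟨h6, h7⟩ := ih (add α m) (right_ne_zero_of_mul hc) h5
    refine ⟨h6, ?_⟩
    rw [final, h7, h3, Set.ncard_insert_of_notMem h4 hf, List.length_cons]
    omega

open Classical in
/-- the classes that occur -/
noncomputable def CC (S : TileSystem) (N : ℕ) : Finset (JJ S → ℕ) :=
  Fintype.piFinset fun _ => Finset.range N

open Classical in
theorem card_CC (S : TileSystem) (N : ℕ) : (CC S N).card = N ^ (S.T.card + 2 ^ S.T.card) := by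
  unfold CC
  rw [Fintype.card_piFinset, Finset.prod_const, Finset.card_range, Finset.card_univ,
    Fintype.card_coe]
  congr 1
  unfold JJ
  rw [Finset.card_disjSum, Finset.card_powerset]

theorem mon_restrict (ρ : Tile → ℝ≥0) (v : Idx → ℕ) :
    mon S ρ v = ∏ i : JJ S, fac ρ i ^ v i := by
  unfold mon
  rw [← Finset.prod_coe_sort]

open Classical in
/-- The main counting estimate. -/
theorem main_count (r : Assembly → ℕ) (ρ : ℕ → Tile → ℝ≥0) (F : Finset ℕ) (N : ℕ) :
    ∑ n ∈ F, Pr g S (ρ n) (fun α => r α = n ∧ (dom α).ncard < N) ≤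
      (N ^ (S.T.card + 2 ^ S.T.card) : ℕ) := by
  rcases F.eq_empty_or_nonempty with rfl | hF
  · simp
  -- the contribution of a class
  let A : ℕ → (JJ S → ℕ) → List (Pos × Tile) → Prop := fun n v L =>
    (Terminal g S (final (seed S) L) ∧ r (final (seed S) L) = n) ∧
      (fun i : JJ S => cls g S (seed S) L i) = v
  let M : ℕ → (JJ S → ℕ) → ℝ≥0 := fun n v => ∏ i : JJ S, fac (ρ n) i ^ v i
  have hseq : ∀ n v L, A n v L → ∀ n', seqProb g S (ρ n') (seed S) L =
      cst g S (seed S) L * M n' v := by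
    intro n v L hA n'
    rw [seqProb_eq, mon_restrict]
    simp only [M, ← hA.2]
  have h1 : ∀ n ∈ F, Pr g S (ρ n) (fun α => r α = n ∧ (dom α).ncard < N) ≤
      ∑ v ∈ CC S N, ∑' L : List (Pos × Tile), (if A n v L then
        (cst g S (seed S) L : ℝ≥0∞) * M n v else 0) := by
    intro n _
    unfold Pr
    rw [← Summable.tsum_finsetSum (fun v _ => ENNReal.summable)]
    refine ENNReal.tsum_le_tsum fun L => ?_
    split_ifs with h2
    · obtain ⟨h3, h4, h5⟩ := h2
      by_cases hc : cst g S (seed S) L = 0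
      · rw [seqProb_eq, hc, zero_mul]
        simp
      · have hseedfin : (dom (seed S)).Finite := by
          refine (Set.finite_singleton S.seedPos).subset fun p hp => ?_
          unfold dom seed add at hp
          by_contra hne
          rw [Set.mem_singleton_iff] at hne
          simp [Function.update_of_ne hne] at hp
        obtain ⟨-, h6⟩ := card_dom L (seed S) hc hseedfin
        have hlen : L.length < N := by omega
        have hv : (fun i : JJ S => cls g S (seed S) L i) ∈ CC S N := by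
          unfold CC
          rw [Fintype.mem_piFinset]
          intro i
          rw [Finset.mem_range]
          exact lt_of_le_of_lt (cls_le L _ _) hlen
        refine le_trans ?_ (Finset.single_le_sum (f := fun v => (if A n v L then
          (cst g S (seed S) L : ℝ≥0∞) * M n v else 0)) (fun _ _ => zero_le) hv)
        have hA : A n (fun i : JJ S => cls g S (seed S) L i) L := ⟨⟨h3, h4⟩, rfl⟩
        rw [if_pos hA, hseq n _ L hA n, ENNReal.coe_mul]
    · exact zero_le
  refine (Finset.sum_le_sum h1).trans ?_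
  rw [Finset.sum_comm, ← card_CC, Finset.card_eq_sum_ones, Nat.cast_sum]
  refine Finset.sum_le_sum fun v _ => ?_
  rw [Nat.cast_one]
  obtain ⟨n', hn', hmax⟩ := F.exists_max_image (fun n => M n v) hF
  have h2 : ∑ n ∈ F, ∑' L : List (Pos × Tile), (if A n v L then
      (cst g S (seed S) L : ℝ≥0∞) * M n v else 0) ≤
      ∑ n ∈ F, ∑' L : List (Pos × Tile), (if A n v L then
        (seqProb g S (ρ n') (seed S) L : ℝ≥0∞) else 0) := by
    refine Finset.sum_le_sum fun n hn => ENNReal.tsum_le_tsum fun L => ?_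
    split_ifs with hA
    · rw [hseq n v L hA n', ENNReal.coe_mul]
      exact mul_le_mul_right (ENNReal.coe_le_coe.2 (hmax n hn)) _
    · exact le_rfl
  refine h2.trans (le_trans ?_ (Pr_total (g := g) (S := S) (ρ n')))
  rw [← Summable.tsum_finsetSum (fun v _ => ENNReal.summable)]
  refine ENNReal.tsum_le_tsum fun L => ?_
  by_cases hL : Terminal g S (final (seed S) L)
  · rw [if_pos hL]
    by_cases hr : r (final (seed S) L) ∈ F
    · rw [Finset.sum_eq_single_of_mem _ hr]
      · split_ifs
        · exact le_rfl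
        · exact zero_le
      · intro n _ hn
        rw [if_neg]
        rintro ⟨⟨-, h⟩, -⟩
        exact hn h.symm
    · rw [Finset.sum_eq_zero]
      · exact zero_le
      · intro n hn
        rw [if_neg]
        rintro ⟨⟨-, h⟩, -⟩
        rw [h] at hr
        exact hr hn
  · rw [if_neg hL, Finset.sum_eq_zero]
    intro n _
    rw [if_neg]
    rintro ⟨⟨h, -⟩, -⟩
    exact hL h

theorem Pr_mono (ρ : Tile → ℝ≥0) {E F : Assembly → Prop} (h : ∀ α, E α → F α) :
    Pr g S ρ E ≤ Pr g S ρ F := by
  classical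
  unfold Pr
  refine ENNReal.tsum_le_tsum fun L => ?_
  split_ifs with h1 h2 h2
  · exact le_rfl
  · exact absurd ⟨h1.1, h _ h1.2⟩ h2
  · exact zero_le
  · exact le_rfl

open Classical in
/-- The number of good `n` below `K`. -/
theorem count_bound (r : Assembly → ℕ) (ρ : ℕ → Tile → ℝ≥0) (δ : ℝ)
    (h : ∀ n, ENNReal.ofReal (1 - δ) ≤ Pr g S (ρ n) (fun α => r α = n)) (ε : ℝ) (hε : 0 ≤ ε)
    (K : ℕ) :
    (((Finset.range K).filter fun n : ℕ => ENNReal.ofReal (1 - δ) ≤
      Pr g S (ρ n) (fun α => ((dom α).ncard : ℝ) < (n : ℝ) ^ ε)).card : ℝ) * (1 - 2 * δ) ≤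
      (⌈(K : ℝ) ^ ε⌉₊ : ℝ) ^ (S.T.card + 2 ^ S.T.card) := by
  rcases le_or_gt (1 - 2 * δ) 0 with hδ | hδ
  · exact (mul_nonpos_of_nonneg_of_nonpos (by positivity) hδ).trans (by positivity)
  set B := (Finset.range K).filter fun n : ℕ => ENNReal.ofReal (1 - δ) ≤
      Pr g S (ρ n) (fun α => ((dom α).ncard : ℝ) < (n : ℝ) ^ ε) with hB
  have h1 : ∀ n ∈ B, ENNReal.ofReal (1 - 2 * δ) ≤
      Pr g S (ρ n) (fun α => r α = n ∧ (dom α).ncard < ⌈(K : ℝ) ^ ε⌉₊) := by
    intro n hn
    rw [hB, Finset.mem_filter, Finset.mem_range] at hn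
    have h2 := Pr_inter (g := g) (S := S) (ρ n) (fun α => r α = n)
      (fun α => ((dom α).ncard : ℝ) < (n : ℝ) ^ ε)
    have h3 : Pr g S (ρ n) (fun α => r α = n ∧ ((dom α).ncard : ℝ) < (n : ℝ) ^ ε) ≤
        Pr g S (ρ n) (fun α => r α = n ∧ (dom α).ncard < ⌈(K : ℝ) ^ ε⌉₊) := by
      refine Pr_mono _ fun α hα => ⟨hα.1, ?_⟩
      rw [Nat.lt_ceil]
      refine hα.2.trans_le (Real.rpow_le_rpow (by positivity) ?_ hε)
      exact_mod_cast hn.1.le
    have h4 : ENNReal.ofReal (1 - δ) + ENNReal.ofReal (1 - δ) ≤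
        Pr g S (ρ n) (fun α => r α = n ∧ (dom α).ncard < ⌈(K : ℝ) ^ ε⌉₊) + 1 :=
      (add_le_add (h n) hn.2).trans (h2.trans (add_le_add_left h3 1))
    rw [← ENNReal.ofReal_add (by linarith) (by linarith)] at h4
    have h5 : (1 - δ + (1 - δ)) = (1 - 2 * δ) + 1 := by ring
    rw [h5, ENNReal.ofReal_add hδ.le zero_le_one, ENNReal.ofReal_one] at h4
    exact (ENNReal.add_le_add_iff_right ENNReal.one_ne_top).1 h4
  have h6 := (Finset.sum_le_sum h1).trans (main_count (g := g) (S := S) r ρ B _)
  rw [Finset.sum_const, nsmul_eq_mul] at h6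
  have h7 := ENNReal.toReal_mono (by exact ENNReal.natCast_ne_top _) h6
  rw [ENNReal.toReal_mul, ENNReal.toReal_natCast, ENNReal.toReal_natCast,
    ENNReal.toReal_ofReal hδ.le] at h7
  push_cast at h7
  exact h7

open Classical Filter in
/-- The good `n` have density zero. -/
theorem density (r : Assembly → ℕ) (ρ : ℕ → Tile → ℝ≥0) (δ : ℝ) (hδ : δ < 1 / 2)
    (h : ∀ n, ENNReal.ofReal (1 - δ) ≤ Pr g S (ρ n) (fun α => r α = n)) (ε : ℝ) (hε : 0 ≤ ε)
    (hε' : ε * (S.T.card + 2 ^ S.T.card) < 1) :
    Tendsto (fun K : ℕ => (((Finset.range K).filter fun n : ℕ => ENNReal.ofReal (1 - δ) ≤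
      Pr g S (ρ n) (fun α => ((dom α).ncard : ℝ) < (n : ℝ) ^ ε)).card : ℝ) / K) atTop
      (nhds 0) := by
  set M : ℕ := S.T.card + 2 ^ S.T.card with hM
  have hM' : ((S.T.card : ℝ) + 2 ^ S.T.card) = (M : ℝ) := by rw [hM]; push_cast; rfl
  rw [hM'] at hε'
  have hpos : 0 < 1 - 2 * δ := by linarith
  have hlim : Tendsto (fun K : ℕ => 2 ^ M / (1 - 2 * δ) * ((K : ℝ) ^ (-(1 - ε * M)))) atTop
      (nhds 0) := by
    have h1 := (tendsto_rpow_neg_atTop (y := 1 - ε * M) (by linarith)).comp
      (tendsto_natCast_atTop_atTop (R := ℝ))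
    have h2 := h1.const_mul (2 ^ M / (1 - 2 * δ))
    rw [mul_zero] at h2
    exact h2
  refine squeeze_zero' (Eventually.of_forall fun K => by positivity) ?_ hlim
  filter_upwards [eventually_ge_atTop 1] with K hK
  have hK0 : (0 : ℝ) < K := by exact_mod_cast hK
  have hK1 : (1 : ℝ) ≤ K := by exact_mod_cast hK
  have h1 := count_bound (g := g) (S := S) r ρ δ h ε hε K
  have h2 : (⌈(K : ℝ) ^ ε⌉₊ : ℝ) ≤ 2 * (K : ℝ) ^ ε := by
    have h3 : (1 : ℝ) ≤ (K : ℝ) ^ ε := Real.one_le_rpow hK1 hε
    have h4 := (Nat.ceil_lt_add_one (by linarith : (0 : ℝ) ≤ (K : ℝ) ^ ε)).le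
    linarith
  have h5 : (⌈(K : ℝ) ^ ε⌉₊ : ℝ) ^ M ≤ 2 ^ M * (K : ℝ) ^ (ε * M) := by
    calc _ ≤ (2 * (K : ℝ) ^ ε) ^ M := pow_le_pow_left₀ (by positivity) h2 M
      _ = _ := by rw [mul_pow, Real.rpow_mul hK0.le, Real.rpow_natCast]
  rw [← hM] at h1
  rw [div_le_iff₀ hK0]
  have h6 : (K : ℝ) ^ (-(1 - ε * M)) * K = (K : ℝ) ^ (ε * M) := by
    rw [← Real.rpow_add_one hK0.ne']
    congr 1
    ring
  rw [mul_assoc, h6, div_mul_eq_mul_div, le_div_iff₀ hpos]
  exact h1.trans h5

open Filter in
theorem infinitely_many (r : Assembly → ℕ) (ρ : ℕ → Tile → ℝ≥0) (δ : ℝ) (hδ : δ < 1 / 2)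
    (h : ∀ n, ENNReal.ofReal (1 - δ) ≤ Pr g S (ρ n) (fun α => r α = n)) (ε : ℝ) (hε : 0 ≤ ε)
    (hε' : ε * (S.T.card + 2 ^ S.T.card) < 1) :
    ∃ᶠ n : ℕ in atTop, Pr g S (ρ n) (fun α => ((dom α).ncard : ℝ) < (n : ℝ) ^ ε) <
      ENNReal.ofReal (1 - δ) := by
  classical
  have h1 := density (g := g) (S := S) r ρ δ hδ h ε hε hε'
  by_contra hc
  rw [not_frequently] at hc
  obtain ⟨n0, hn0⟩ := eventually_atTop.1 hc
  have h2 := h1.eventually (gt_mem_nhds (by norm_num : (0 : ℝ) < 1 / 2))
  obtain ⟨n1, hn1⟩ := eventually_atTop.1 h2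
  have h3 := hn1 (2 * n0 + n1 + 1) (by omega)
  have h4 : (Finset.range (2 * n0 + n1 + 1)) \ Finset.range n0 ⊆
      (Finset.range (2 * n0 + n1 + 1)).filter fun n : ℕ => ENNReal.ofReal (1 - δ) ≤
      Pr g S (ρ n) (fun α => ((dom α).ncard : ℝ) < (n : ℝ) ^ ε) := by
    intro n hn
    rw [Finset.mem_sdiff, Finset.mem_range, Finset.mem_range] at hn
    rw [Finset.mem_filter, Finset.mem_range]
    exact ⟨hn.1, not_lt.1 (hn0 n (by omega))⟩
  have h5 := Finset.card_le_card h4
  rw [Finset.card_sdiff_of_subset (by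
    intro n hn
    rw [Finset.mem_range] at hn ⊢
    omega), Finset.card_range, Finset.card_range] at h5
  rw [div_lt_iff₀ (by positivity)] at h3
  have h6 : ((2 * n0 + n1 + 1 - n0 : ℕ) : ℝ) ≤ _ := Nat.cast_le.2 h5
  have h7 : ((2 * n0 + n1 + 1 - n0 : ℕ) : ℝ) = n0 + n1 + 1 := by
    rw [show 2 * n0 + n1 + 1 - n0 = n0 + n1 + 1 by omega]
    push_cast
    ring
  rw [h7] at h6
  have h8 : ((2 * n0 + n1 + 1 : ℕ) : ℝ) = 2 * n0 + n1 + 1 := by push_cast; ring
  rw [h8] at h3
  have h9 : (0 : ℝ) ≤ n1 := Nat.cast_nonneg _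
  linarith

end

end Pool.Agent.X234.TA
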